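import Pool.Agent.Helper4_HM.Zono

/-!
# ZCH: chaining of the validated steps (statement)

A step certificate `c` holds: half of the step length `h` (units `2^-P`), the jets `C`, `C'` of the
centre at the beginning and at the end (8 lists of 15 integers), the half widths `B` of the error box at
the beginning, the matrix `E` (coefficients of the normalised error variables at the end) and the
remainders `R`; all in units `2^-P`.
-/

namespace Pool.Agent.HM.H4

open Set Finset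

structure Cert where
  h : ℕ
  C : List (List ℤ)
  B : List ℕ
  E : List (List ℤ)
  R : List ℕ
  C' : List (List ℤ)

/-- matrix with pairs (positive part, negative part) -/
def pairE (E : List (List ℤ)) : List (List (ℕ × ℕ)) :=
  E.map fun l => l.map fun a => (a.toNat, (-a).toNat)

/-- entry of a matrix -/
def ent (E : List (List ℤ)) (i k : ℕ) : ℤ := (E.getD i []).getD k 0

/-- what a validated step gives; `J C ξ` = value of the jets `C` at the parameter `ξ`,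
`Q` = region which contains the solution during the step -/
def StepP (G : (Fin 8 → ℝ) → (Fin 8 → ℝ)) (P : ℕ) (J : List (List ℤ) → (Fin 4 → ℝ) → Fin 8 → ℝ)
    (c : Cert) (Q : (Fin 8 → ℝ) → Prop) : Prop :=
  ∀ ξ : Fin 4 → ℝ, (∀ i, |ξ i| ≤ 1) → ∀ η : Fin 8 → ℝ, (∀ i, |η i| ≤ 1) →
    ∃ x : ℝ → Fin 8 → ℝ,
      (∀ i : Fin 8, x (-1) i = J c.C ξ i + (c.B.getD i 0 : ℝ) * η i / 2 ^ P) ∧
      (∀ t ∈ Icc (-1 : ℝ) 1,
        HasDerivWithinAt x (fun i => (c.h : ℝ) / 2 ^ P * G (x t) i) (Icc (-1) 1) t ∧ Q (x t)) ∧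
      ∀ i : Fin 8, |x 1 i - J c.C' ξ i - (∑ k : Fin 8, (ent c.E i k : ℝ) * η k) / 2 ^ P|
        ≤ (c.R.getD i 0 : ℝ) / 2 ^ P

/-- `x - J C ξ` lies in the zonotope `s` (units `2^-(P+D)`) -/
def InZ (w P D : ℕ) (s : ZS) (X : Fin 8 → ℝ) : Prop :=
  ∃ y : ℕ → ℝ, Zn w s y ∧ ∀ i : Fin 8, X i = y i / 2 ^ (P + D)

/-- evaluation of a list of certificates, starting with the centre `C` and the zonotope `s` -/
def zrun (w Qs D : ℕ) : List Cert → List (List ℤ) → ZS → Option (List (List ℤ) × ZS)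
  | [], C, s => some (C, s)
  | c :: cs, C, s =>
    if decide (c.C = C) && zchk w Qs D s c.B (pairE c.E) c.R then
      zrun w Qs D cs c.C' (zstep w Qs D s c.B (pairE c.E) c.R)
    else none

/-- total time, in units `2^-P` (twice the half steps) -/
def ztime : List Cert → ℕ
  | [] => 0
  | c :: cs => 2 * c.h + ztime cs

/-- the solution stays in the regions during the steps; `a` = time at the beginning, units `2^-P` -/
def Track (P : ℕ) (x : ℝ → Fin 8 → ℝ) : ℕ → List (Cert × ((Fin 8 → ℝ) → Prop)) → Prop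
  | _, [] => True
  | a, (c, Q) :: cs =>
    (∀ s ∈ Icc ((a : ℝ) / 2 ^ P) (((a + 2 * c.h : ℕ) : ℝ) / 2 ^ P), Q (x s)) ∧
      Track P x (a + 2 * c.h) cs

/-- **ZCH** -/
def ZchStmt : Prop :=
  ∀ (G : (Fin 8 → ℝ) → (Fin 8 → ℝ)) (P : ℕ) (J : List (List ℤ) → (Fin 4 → ℝ) → Fin 8 → ℝ)
    (w Qs D : ℕ) (cs : List (Cert × ((Fin 8 → ℝ) → Prop))) (C C' : List (List ℤ)) (s s' : ZS),
    1 ≤ w → Qs ≤ w → (∀ c ∈ cs, 0 < c.1.h) → (∀ c ∈ cs, StepP G P J c.1 c.2) →
    zrun w Qs D (cs.map Prod.fst) C s = some (C', s') →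
    ∀ ξ : Fin 4 → ℝ, (∀ i, |ξ i| ≤ 1) → ∀ x0 : Fin 8 → ℝ, InZ w P D s (fun i => x0 i - J C ξ i) →
      ∃ x : ℝ → Fin 8 → ℝ, x 0 = x0 ∧
        (∀ t ∈ Icc (0 : ℝ) ((ztime (cs.map Prod.fst) : ℝ) / 2 ^ P),
          HasDerivWithinAt x (G (x t)) (Icc 0 ((ztime (cs.map Prod.fst) : ℝ) / 2 ^ P)) t) ∧
        Track P x 0 cs ∧
        InZ w P D s' (fun i => x ((ztime (cs.map Prod.fst) : ℝ) / 2 ^ P) i - J C' ξ i)

end Pool.Agent.HM.H4
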