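import Pool.Agent.Helper4_HM.StmtZ

/-!
# Evaluation of the zonotope chain in blocks with literal intermediate states
-/

namespace Pool.Agent.HM.H4

/-- equality of states -/
def eqZS (a b : ZS) : Bool := (a.n == b.n) && (a.rows == b.rows)

theorem eqZS_sound {a b : ZS} (h : eqZS a b = true) : a = b := by
  cases a
  cases b
  simp only [eqZS, Bool.and_eq_true, beq_iff_eq] at h
  obtain ⟨h1, h2⟩ := h
  subst h1 h2
  rfl

/-- the evaluation of the block gives `(C', s')` -/
def runOK (w Qs D : ℕ) : List Cert → List (List ℤ) → ZS → List (List ℤ) → ZS → Bool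
  | [], C, s, C', s' => decide (C = C') && eqZS s s'
  | c :: cs, C, s, C', s' =>
    (decide (c.C = C) && zchk w Qs D s c.B (pairE c.E) c.R) &&
      runOK w Qs D cs c.C' (zstep w Qs D s c.B (pairE c.E) c.R) C' s'

theorem runOK_sound {w Qs D : ℕ} : ∀ {cs : List Cert} {C : List (List ℤ)} {s : ZS}
    {C' : List (List ℤ)} {s' : ZS}, runOK w Qs D cs C s C' s' = true →
    zrun w Qs D cs C s = some (C', s')
  | [], C, s, C', s', h => by
    simp only [runOK, Bool.and_eq_true, decide_eq_true_eq] at h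
    rw [zrun, h.1, eqZS_sound h.2]
  | c :: cs, C, s, C', s', h => by
    simp only [runOK, Bool.and_eq_true] at h
    rw [zrun, if_pos (by simp only [Bool.and_eq_true]; exact h.1)]
    exact runOK_sound h.2

theorem zrun_append {w Qs D : ℕ} : ∀ {cs ds : List Cert} {C C₁ C₂ : List (List ℤ)} {s s₁ s₂ : ZS},
    zrun w Qs D cs C s = some (C₁, s₁) → zrun w Qs D ds C₁ s₁ = some (C₂, s₂) →
    zrun w Qs D (cs ++ ds) C s = some (C₂, s₂)
  | [], ds, C, C₁, C₂, s, s₁, s₂, h, h' => by
    simp only [zrun, Option.some.injEq, Prod.mk.injEq] at h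
    obtain ⟨rfl, rfl⟩ := h
    exact h'
  | c :: cs, ds, C, C₁, C₂, s, s₁, s₂, h, h' => by
    rw [zrun] at h
    rw [List.cons_append, zrun]
    split_ifs at h with hc
    rw [if_pos hc]
    exact zrun_append h h'

end Pool.Agent.HM.H4
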