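import Pool.Agent.Helper2_TM.StartD
import Pool.Agent.Helper4_HM.Run

/-! start data -/

namespace Pool.Agent.HM.H4

open Pool.Agent.H2TM

/-- guesses for the start of A -/
def aG : Gs := ⟨250626478708456, 254984249997705, 281474976710656, 168325020205451⟩

/-- start jets -/
def aC0 : List (List ℤ) :=
  [[470685596339519, -1239821277, 1239821278, 2514566167, 2514566167, -1191115, 62086, 78501, -43742, -1191115, 43742, -78501, -9052, 133979, -9052],
   [0, 0, 0, 0, 0, 0, 0, 0, 0, 0, 0, 0, 0, 0, 0],
   [0, 0, 0, 0, 0, 0, 0, 0, 0, 0, 0, 0, 0, 0, 0],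
   [0, -17517040478, -17517040478, 433339464, -433339464, 306979, 0, -835151, 1350259, -306979, 1350259, -835151, 27455, 0, -27455],
   [16821770805421, 125648794070, -125648794072, -4085332391, -4085332391, -747425, 1329011, 1371072, 1362334, -747425, -1362334, -1371072, -45737, -80605, -45737],
   [782939498804147, 2850166459, -2850166461, -7909817141, -7909817141, -3993921, 269168, 399389, -7295, -3993921, 7295, -399389, -181664, 142616, -181664],
   [0, -15846630236, -15846630236, 523083808, -523083809, 0, 0, 0, 0, 0, 0, 0, 0, 0, 0],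
   [0, -2343675217, -2343675217, 6158269981, -6158269982, 0, 0, 0, 0, 0, 0, 0, 0, 0, 0]]

/-- start remainders -/
def aR0 : List ℕ := [16052, 0, 0, 355, 3532, 17864, 5, 5]

theorem a0_chk : sAOk 112 48 0 aG = true := by decide +kernel

theorem a0_sta : staOk 112 0 (sA 112 48 0 aG) aC0 aR0 = true := by decide +kernel

end Pool.Agent.HM.H4
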