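import Pool.Agent.Helper4_HM.AR01

/-! all steps -/

namespace Pool.Agent.HM.H4

open Pool.Agent.H2TM

/-- all steps -/
def als : List Lit := ab01

theorem als_ok : als.all (stepOK 112 48 12) = true := by
  simp only [als, List.all_append, ab01_ok, Bool.and_self]

theorem als_pos : als.all (fun l => decide (0 < l.h)) = true := by decide +kernel

theorem als_ne : (als.isEmpty) = false := by decide +kernel

theorem als_run : zrun 80 28 8 (als.map Lit.cert) aC0 (zdiag 80 8 aR0) = some (ae01, az01) :=
  runOK_sound ar01

end Pool.Agent.HM.H4
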