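import Pool.Agent.Helper2_TM.OutF
import Pool.Agent.Helper4_HM.Run
import Pool.Agent.Helper4_HM.AD01

/-! outcome of A -/

namespace Pool.Agent.HM.H4

open Pool.Agent.H2TM

/-- the outcome of A -/
def ao : Cert := ⟨0, ae01, [22530877047, 1238070138, 38535517726, 3083997071, 9493809482, 117830948605, 203081374, 3598513266],
  [[1491683189, 3731606817, -769650548, 3980584785, 387196878, 68837135, -820957042, 46141982],
   [-3658296111, -926919393, 11485673862, 8510185527, -387196878, -68837135, 820957042, -46141982],
   [0, 0, 0, 0, 84040, -392201506, 568696, -1186782299],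
   [0, 0, 0, 0, 0, 0, 0, 0],
   [0, 0, 0, 0, 0, 0, 0, 0],
   [0, 0, 0, 0, 0, 0, 0, 0],
   [0, 0, 0, 0, 0, 0, 0, 0],
   [0, 0, 0, 0, 0, 0, 0, 0]],
  [1637046681, 1549297420, 3922795, 0, 0, 0, 0, 0],
  [[-34626474885078, -1559237, 916258408352, 59384, 23179405, 3617143, -67501021, 3505515, -82151049, 170266655, 11973866, 380275088, -128128, 2277409, 2051359],
   [-27082048957162, 13518308645, 3141804224, -563455736, 6162963806, 807280, -9670917, -44228, -5553553, 35400812, 2060587, -93308458, -90, 306404, 106393],
   [-2761645951, -3061, 200604, -5850, 84441135378, 4667704, -19506069, -266009, 2681329, 239284891, 1406681, 1010558, -16815, 1041938, 22422529],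
   [],
   [],
   [],
   [],
   []]⟩

theorem ao_ok : outOK 112 48 0 11482871447991 15132225304624 260 205 ao = true := by decide +kernel

theorem ao_chk : zchk 80 28 8 az01 ao.B (pairE ao.E) ao.R = true := by decide +kernel

theorem ao_fin : finOK 112 48 0 8 (zstep 80 28 8 az01 ao.B (pairE ao.E) ao.R) ao.C' (-1230072) (-962031) = true := by
  decide +kernel

end Pool.Agent.HM.H4
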