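import Pool.Agent.Helper4_HM.Run
import Pool.Agent.Helper4_HM.AD01
import Pool.Agent.Helper4_HM.A0
import Pool.Agent.Helper4_HM.AS00
import Pool.Agent.Helper4_HM.AS01
import Pool.Agent.Helper4_HM.AS02
import Pool.Agent.Helper4_HM.AS03
import Pool.Agent.Helper4_HM.AS04
import Pool.Agent.Helper4_HM.AS05
import Pool.Agent.Helper4_HM.AS06
import Pool.Agent.Helper4_HM.AS07
import Pool.Agent.Helper4_HM.AS08
import Pool.Agent.Helper4_HM.AS09
import Pool.Agent.Helper4_HM.AS10
import Pool.Agent.Helper4_HM.AS11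
import Pool.Agent.Helper4_HM.AS12
import Pool.Agent.Helper4_HM.AS13
import Pool.Agent.Helper4_HM.AS14
import Pool.Agent.Helper4_HM.AS15
import Pool.Agent.Helper4_HM.AS16
import Pool.Agent.Helper4_HM.AS17
import Pool.Agent.Helper4_HM.AS18
import Pool.Agent.Helper4_HM.AS19
import Pool.Agent.Helper4_HM.AS20

/-! run of a block -/

namespace Pool.Agent.HM.H4

open Pool.Agent.H2TM

/-- steps of block 1 -/
def ab01 : List Lit := al00 ++ (al01 ++ (al02 ++ (al03 ++ (al04 ++ (al05 ++ (al06 ++ (al07 ++ (al08 ++ (al09 ++ (al10 ++ (al11 ++ (al12 ++ (al13 ++ (al14 ++ (al15 ++ (al16 ++ (al17 ++ (al18 ++ (al19 ++ (al20))))))))))))))))))))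

theorem ab01_ok : ab01.all (stepOK 112 48 12) = true := by
  simp only [ab01, List.all_append, al00_ok, al01_ok, al02_ok, al03_ok, al04_ok, al05_ok, al06_ok, al07_ok, al08_ok, al09_ok, al10_ok, al11_ok, al12_ok, al13_ok, al14_ok, al15_ok, al16_ok, al17_ok, al18_ok, al19_ok, al20_ok, Bool.and_self]

theorem ar01 : runOK 80 28 8 (ab01.map Lit.cert) aC0 (zdiag 80 8 aR0) ae01 az01 = true := by
  decide +kernel

end Pool.Agent.HM.H4
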