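import Pool.Agent.Helper2_TM.StartD
import Pool.Agent.Helper4_HM.Run

/-! start data -/

namespace Pool.Agent.HM.H4

open Pool.Agent.H2TM

/-- guesses for the start of B -/
def bG : Gs := ⟨562949953421312, 562949953421312, 113529329714577, 280308099316802⟩

/-- start jets -/
def bC0 : List (List ℤ) :=
  [[282646711626842, -42352699848, -70739958937, 387948678, -1851591236, 3190327, 10921988, 242385, 26196, 8869485, 154156, 162891, -9978, 12051, -4179],
   [0, 0, 0, 0, 0, 0, 0, 0, 0, 0, 0, 0, 0, 0, 0],
   [-272258956151623, 12326765640, 5200140176, 974648817, -820338937, 1192870, 6035782, -474592, 551440, 7208916, -572337, 907100, 11461, -24014, 21083],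
   [-120461582317240, 24957197140, -8890826334, -1621298326, -1303140814, 669381, -533662, -172951, 81159, 2926595, 69165, 412675, 6938, 1530, 10802],
   [-425734986429663, -99539868640, -14023576637, 3329034580, 1080171822, -41981050, -64834460, 1072800, -190313, -30575452, 552522, -258868, 5965, -28651, 17610],
   [0, 0, 0, 0, 0, 0, 0, 0, 0, 0, 0, 0, 0, 0, 0],
   [-271130284520063, 153709537095, 119381834097, -6528922843, 5278586511, 0, 0, 0, 0, 0, 0, 0, 0, 0, 0],
   [-119962199036792, 70877275553, 25121322583, -2717276409, -816245043, -9153939, 0, 888186, 525642, 9153939, 525642, 888186, -13995, 0, 13995]]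

/-- start remainders -/
def bR0 : List ℕ := [1313551, 0, 1273694, 567101, 1095459, 0, 22, 56]

theorem b0_chk : sBOk 112 48 0 bG = true := by decide +kernel

theorem b0_sta : staOk 112 0 (sB 112 48 0 bG) bC0 bR0 = true := by decide +kernel

end Pool.Agent.HM.H4
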