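import Pool.Agent.Helper4_HM.BR01

/-! all steps -/

namespace Pool.Agent.HM.H4

open Pool.Agent.H2TM

/-- all steps -/
def bls : List Lit := bb01

theorem bls_ok : bls.all (stepOK 112 48 12) = true := by
  simp only [bls, List.all_append, bb01_ok, Bool.and_self]

theorem bls_pos : bls.all (fun l => decide (0 < l.h)) = true := by decide +kernel

theorem bls_ne : (bls.isEmpty) = false := by decide +kernel

theorem bls_run : zrun 80 28 8 (bls.map Lit.cert) bC0 (zdiag 80 8 bR0) = some (be01, bz01) :=
  runOK_sound br01

end Pool.Agent.HM.H4
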