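import Pool.Agent.Helper4_HM.Run
import Pool.Agent.Helper4_HM.CD02
import Pool.Agent.Helper4_HM.CD01
import Pool.Agent.Helper4_HM.CS19
import Pool.Agent.Helper4_HM.CS20
import Pool.Agent.Helper4_HM.CS21
import Pool.Agent.Helper4_HM.CS22
import Pool.Agent.Helper4_HM.CS23
import Pool.Agent.Helper4_HM.CS24
import Pool.Agent.Helper4_HM.CS25
import Pool.Agent.Helper4_HM.CS26

/-! run of a block -/

namespace Pool.Agent.HM.H4

open Pool.Agent.H2TM

/-- steps of block 2 -/
def cb02 : List Lit := cl19 ++ (cl20 ++ (cl21 ++ (cl22 ++ (cl23 ++ (cl24 ++ (cl25 ++ (cl26)))))))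

theorem cb02_ok : cb02.all (stepOK 112 48 12) = true := by
  simp only [cb02, List.all_append, cl19_ok, cl20_ok, cl21_ok, cl22_ok, cl23_ok, cl24_ok, cl25_ok, cl26_ok, Bool.and_self]

theorem cr02 : runOK 80 28 8 (cb02.map Lit.cert) ce01 cz01 ce02 cz02 = true := by
  decide +kernel

end Pool.Agent.HM.H4
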