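import Pool.Agent.Helper4_HM.Run
import Pool.Agent.Helper4_HM.CD03
import Pool.Agent.Helper4_HM.CD02
import Pool.Agent.Helper4_HM.CS27
import Pool.Agent.Helper4_HM.CS28
import Pool.Agent.Helper4_HM.CS29
import Pool.Agent.Helper4_HM.CS30
import Pool.Agent.Helper4_HM.CS31
import Pool.Agent.Helper4_HM.CS32

/-! run of a block -/

namespace Pool.Agent.HM.H4

open Pool.Agent.H2TM

/-- steps of block 3 -/
def cb03 : List Lit := cl27 ++ (cl28 ++ (cl29 ++ (cl30 ++ (cl31 ++ (cl32)))))

theorem cb03_ok : cb03.all (stepOK 112 48 12) = true := by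
  simp only [cb03, List.all_append, cl27_ok, cl28_ok, cl29_ok, cl30_ok, cl31_ok, cl32_ok, Bool.and_self]

theorem cr03 : runOK 80 28 8 (cb03.map Lit.cert) ce02 cz02 ce03 cz03 = true := by
  decide +kernel

end Pool.Agent.HM.H4
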