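import Pool.Agent.Helper4_HM.Run
import Pool.Agent.Helper4_HM.CD04
import Pool.Agent.Helper4_HM.CD03
import Pool.Agent.Helper4_HM.CS33
import Pool.Agent.Helper4_HM.CS34

/-! run of a block -/

namespace Pool.Agent.HM.H4

open Pool.Agent.H2TM

/-- steps of block 4 -/
def cb04 : List Lit := cl33 ++ (cl34)

theorem cb04_ok : cb04.all (stepOK 112 48 12) = true := by
  simp only [cb04, List.all_append, cl33_ok, cl34_ok, Bool.and_self]

theorem cr04 : runOK 80 28 8 (cb04.map Lit.cert) ce03 cz03 ce04 cz04 = true := by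
  decide +kernel

end Pool.Agent.HM.H4
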