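import Pool.Agent.Helper4_HM.CR01
import Pool.Agent.Helper4_HM.CR02
import Pool.Agent.Helper4_HM.CR03
import Pool.Agent.Helper4_HM.CR04

/-! all steps -/

namespace Pool.Agent.HM.H4

open Pool.Agent.H2TM

/-- all steps -/
def cls : List Lit := cb01 ++ (cb02 ++ (cb03 ++ (cb04)))

theorem cls_ok : cls.all (stepOK 112 48 12) = true := by
  simp only [cls, List.all_append, cb01_ok, cb02_ok, cb03_ok, cb04_ok, Bool.and_self]

theorem cls_pos : cls.all (fun l => decide (0 < l.h)) = true := by decide +kernel

theorem cls_ne : (cls.isEmpty) = false := by decide +kernel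

theorem cls_run : zrun 80 28 8 (cls.map Lit.cert) ce00 cz00 = some (ce04, cz04) := by
  simp only [cls, List.map_append]
  exact zrun_append (runOK_sound cr01) (zrun_append (runOK_sound cr02) (zrun_append (runOK_sound cr03) (runOK_sound cr04)))

end Pool.Agent.HM.H4
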