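import Pool.Agent.Helper2_TM.NumZ
import Pool.Agent.Helper4_HM.BAll
import Pool.Agent.Helper4_HM.CAll

/-! codes -/

namespace Pool.Agent.HM.H4

open Pool.Agent.H2TM Pool.Agent.HM

def cl0 : List ℕ := [5, 5, 5, 5, 5, 5, 5, 5, 1]
def cl1 : List ℕ := [4, 4, 4, 4, 4, 4, 2, 2, 2, 2, 2, 2, 2, 2, 2, 2, 2, 2, 2, 2, 2, 2, 2]
def cl2 : List ℕ := [3, 3, 3, 1, 1]
def cl3 : List ℕ := [5, 5, 5, 5, 5, 5, 5, 5, 5, 5, 5, 5, 5, 5, 5, 5, 5, 5, 5, 5, 2]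
def cl4 : List ℕ := [5, 5, 1]
def cl5 : List ℕ := [1, 3, 2]
def cl6 : List ℕ := [2, 2, 2, 2, 2, 2, 2, 2, 2, 2, 2, 2, 2, 2, 2, 2, 2, 4, 1, 1, 1, 1, 1, 1, 1, 1, 1, 1, 1, 1, 1, 1, 1, 1, 1, 1, 1]
def cl7 : List ℕ := [11, 11, 11, 11, 11, 11, 11, 11, 11, 11, 11, 11, 11, 11, 11, 11, 11, 11, 11, 11, 11, 11, 11, 11, 11, 11, 11, 11, 11, 11, 11, 11, 11, 11, 11, 11, 11, 11, 11, 11, 11, 11, 11, 11, 11, 11, 11, 11, 11, 11, 11, 11, 11, 11, 11, 11, 11, 11, 11, 11, 11, 11, 11, 11, 11, 11, 11, 11, 11, 11, 11, 11, 11, 11, 11, 11, 11, 11, 11, 11, 11, 11, 11, 11, 11, 11, 11, 11, 11, 11, 11, 11, 11, 11, 11, 11, 11, 11, 11, 11, 11, 11, 11, 11, 11, 11, 11, 11, 11, 11, 11, 11, 11, 11, 11, 11, 11, 11, 11, 11, 11, 11, 11, 11, 11, 11, 11, 11, 11, 11, 11, 11, 11, 11, 11, 11, 11, 11, 11, 11, 11, 11, 11, 11, 11,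 11, 11, 11, 11, 11, 11, 11, 11, 11, 11, 11, 11, 11, 11, 11, 11, 11, 11, 11, 11, 11, 11, 11, 11, 11, 11, 11, 11, 11, 11, 11, 11, 11, 11, 11, 11, 11, 11, 11, 11]

theorem core_ok : coreOK cl0 cl1 cl2 cl3 cl4 cl5 cl6 cl7 = true := by decide +kernel

theorem core_cat : (bls.map fun l => cd1 l.q) ++ (cls.map fun l => cd2 l.q) =
    cl0 ++ (cl1 ++ (cl2 ++ (cl3 ++ (cl4 ++ (cl5 ++ (cl6 ++ cl7)))))) := by decide +kernel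

end Pool.Agent.HM.H4
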