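import Pool.Agent.Helper2_TM.OutF
import Pool.Agent.Helper4_HM.Run
import Pool.Agent.Helper4_HM.CD04

/-! outcome of B -/

namespace Pool.Agent.HM.H4

open Pool.Agent.H2TM

/-- the outcome of B -/
def bo : Cert := ⟨0, ce04, [197235141598, 71217949287, 867961678770, 112363885503, 453867506063, 2214499020397, 13423986525, 70895905025],
  [[-77269281130, -166369540953, -257408488874, -178617546869, 18374420421, -15286163628, -53464354650, 43020739548],
   [11063008108, 104459892627, -232399048188, -329331529864, -18374420421, 15286163628, 53464354650, -43020739548],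
   [0, 0, 0, 0, -239603232, -7380608034, -720871480, -23151367211],
   [0, 0, 0, 0, 0, 0, 0, 0],
   [0, 0, 0, 0, 0, 0, 0, 0],
   [0, 0, 0, 0, 0, 0, 0, 0],
   [0, 0, 0, 0, 0, 0, 0, 0],
   [0, 0, 0, 0, 0, 0, 0, 0]],
  [27947368302, 30048049199, 98521495, 0, 0, 0, 0, 0],
  [[27388572721704, -885698, 916242715924, 51932, 55211407, -1459737224, -2980313382, 97818922, -130570639, -481507913, 91674693, 256264634, -2987807, 7924008, -12623851],
   [34769985507317, 26296511723, 4810921085, -1755100110, -21614066181, -333329452, -661984587, 22095816, -33134144, 62581858, 17950776, -75636897, -729063, 2007759, -1213501],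
   [-2835103582, -144083, 419931, 6259, 84442669721, 1347340060, 2370550812, -90331667, 98630024, 1567419564, -54768095, -8979088, 2945894, -5687734, 20415300],
   [],
   [],
   [],
   [],
   []]⟩

theorem bo_ok : outOK 112 48 0 11561750031673 12100265814955 205 260 bo = true := by decide +kernel

theorem bo_chk : zchk 80 28 8 cz04 bo.B (pairE bo.E) bo.R = true := by decide +kernel

theorem bo_fin : finOK 112 48 0 8 (zstep 80 28 8 cz04 bo.B (pairE bo.E) bo.R) bo.C' 973137 1235334 = true := by
  decide +kernel

end Pool.Agent.HM.H4
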