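import Pool.Agent.Helper4_HM.Run
import Pool.Agent.Helper4_HM.BD01
import Pool.Agent.Helper4_HM.B0
import Pool.Agent.Helper4_HM.BS00
import Pool.Agent.Helper4_HM.BS01

/-! run of a block -/

namespace Pool.Agent.HM.H4

open Pool.Agent.H2TM

/-- steps of block 1 -/
def bb01 : List Lit := bl00 ++ (bl01)

theorem bb01_ok : bb01.all (stepOK 112 48 12) = true := by
  simp only [bb01, List.all_append, bl00_ok, bl01_ok, Bool.and_self]

theorem br01 : runOK 80 28 8 (bb01.map Lit.cert) bC0 (zdiag 80 8 bR0) be01 bz01 = true := by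
  decide +kernel

end Pool.Agent.HM.H4
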