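import Pool.Agent.Helper4_HM.Run
import Pool.Agent.Helper4_HM.CD01
import Pool.Agent.Helper4_HM.BW
import Pool.Agent.Helper4_HM.CS00
import Pool.Agent.Helper4_HM.CS01
import Pool.Agent.Helper4_HM.CS02
import Pool.Agent.Helper4_HM.CS03
import Pool.Agent.Helper4_HM.CS04
import Pool.Agent.Helper4_HM.CS05
import Pool.Agent.Helper4_HM.CS06
import Pool.Agent.Helper4_HM.CS07
import Pool.Agent.Helper4_HM.CS08
import Pool.Agent.Helper4_HM.CS09
import Pool.Agent.Helper4_HM.CS10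
import Pool.Agent.Helper4_HM.CS11
import Pool.Agent.Helper4_HM.CS12
import Pool.Agent.Helper4_HM.CS13
import Pool.Agent.Helper4_HM.CS14
import Pool.Agent.Helper4_HM.CS15
import Pool.Agent.Helper4_HM.CS16
import Pool.Agent.Helper4_HM.CS17
import Pool.Agent.Helper4_HM.CS18

/-! run of a block -/

namespace Pool.Agent.HM.H4

open Pool.Agent.H2TM

/-- steps of block 1 -/
def cb01 : List Lit := cl00 ++ (cl01 ++ (cl02 ++ (cl03 ++ (cl04 ++ (cl05 ++ (cl06 ++ (cl07 ++ (cl08 ++ (cl09 ++ (cl10 ++ (cl11 ++ (cl12 ++ (cl13 ++ (cl14 ++ (cl15 ++ (cl16 ++ (cl17 ++ (cl18))))))))))))))))))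

theorem cb01_ok : cb01.all (stepOK 112 48 12) = true := by
  simp only [cb01, List.all_append, cl00_ok, cl01_ok, cl02_ok, cl03_ok, cl04_ok, cl05_ok, cl06_ok, cl07_ok, cl08_ok, cl09_ok, cl10_ok, cl11_ok, cl12_ok, cl13_ok, cl14_ok, cl15_ok, cl16_ok, cl17_ok, cl18_ok, Bool.and_self]

theorem cr01 : runOK 80 28 8 (cb01.map Lit.cert) ce00 cz00 ce01 cz01 = true := by
  decide +kernel

end Pool.Agent.HM.H4
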