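import Pool.Agent.Helper2_TM.Fin
import Pool.Agent.Helper4_HM.A0
import Pool.Agent.Helper4_HM.AAll
import Pool.Agent.Helper4_HM.AO
import Pool.Agent.Helper4_HM.B0
import Pool.Agent.Helper4_HM.BAll
import Pool.Agent.Helper4_HM.BW
import Pool.Agent.Helper4_HM.CAll
import Pool.Agent.Helper4_HM.BO
import Pool.Agent.Helper4_HM.BCore

/-!
# `NumAStmt` and `NumBStmt`
-/

namespace Pool.Agent.HM

open Pool.Agent.H2TM Pool.Agent.HM.H4

theorem ne_of_isEmpty {α : Type} {l : List α} (h : l.isEmpty = false) : l ≠ [] := by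
  rintro rfl
  simp at h

theorem pos_of_all {l : List Lit} (h : l.all (fun x => decide (0 < x.h)) = true) :
    ∀ x ∈ l, 0 < x.h := fun x hx => of_decide_eq_true (List.all_eq_true.1 h x hx)

/-- **numerics of passage A** -/
theorem numA : NumAStmt :=
  numA_fin (w' := 80) (Qs := 28) (D := 8) (by norm_num) (by norm_num) (g := aG) (ls := als)
    (C := aC0) (R := aR0) (s' := az01) (c := ao) a0_chk a0_sta (ne_of_isEmpty als_ne)
    (List.all_eq_true.1 als_ok) (pos_of_all als_pos) als_run ao_ok ao_chk ao_fin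

/-- **numerics of passage B** -/
theorem numB : NumBStmt :=
  numB_fin (w' := 80) (Qs := 28) (D := 8) (by norm_num) (by norm_num) (g := bG) (gw := wG)
    (ls₁ := bls) (ls₂ := H4.cls) (C := bC0) (R := bR0) (s₁ := bz01) (s₂ := cz04) (cs := wc) (c := bo)
    b0_chk b0_sta (ne_of_isEmpty bls_ne) (List.all_eq_true.1 bls_ok) (pos_of_all bls_pos) bls_run
    wc_ok wc_chk (ne_of_isEmpty cls_ne) (List.all_eq_true.1 cls_ok) (pos_of_all cls_pos)
    (by rw [wc_z]; exact cls_run) bo_ok bo_chk bo_fin H4.core_cat H4.core_ok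

end Pool.Agent.HM
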