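import Pool.Agent.Helper2_TM.Mul

/-!
# ZONO: transport of error zonotopes with packed rows

State: `n` generators, 8 rows. Row `i` is `(p, q, b)` with `p`, `q` the packed positive and negative
parts of the `i`-th coordinates of the generators and `b` a bound of the sum of the absolute values.
-/

namespace Pool.Agent.HM.H4

open Pool.Agent.H2TM Finset

/-- positive part, negative part, bound -/
abbrev Row := ℕ × ℕ × ℕ

/-- state -/
structure ZS where
  n : ℕ
  rows : List Row

/-- combination of rows with signed coefficients -/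
def cP : List (ℕ × ℕ) → List Row → ℕ
  | c :: co, r :: rows => c.1 * r.1 + c.2 * r.2.1 + cP co rows
  | _, _ => 0

def cQ : List (ℕ × ℕ) → List Row → ℕ
  | c :: co, r :: rows => c.1 * r.2.1 + c.2 * r.1 + cQ co rows
  | _, _ => 0

def cN : List (ℕ × ℕ) → List Row → ℕ
  | c :: co, r :: rows => (c.1 + c.2) * r.2.2 + cN co rows
  | _, _ => 0

/-- coefficients `E_ik / B_k` with denominator `2^Qs` -/
def phi (Qs : ℕ) : List (ℕ × ℕ) → List ℕ → List (ℕ × ℕ)
  | e :: es, b :: bs => (e.1 * 2 ^ Qs / b, e.2 * 2 ^ Qs / b) :: phi Qs es bs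
  | _, _ => []

/-- sum of the bounds -/
def sumB : List Row → ℕ
  | r :: rows => r.2.2 + sumB rows
  | [] => 0

/-- normalisation and shift -/
def shP (w n Qs P Q : ℕ) : ℕ :=
  let p1 := posPart w (rep w n * 2 ^ (w - 1)) P Q
  (p1 - Nat.land p1 (rep w n * (2 ^ Qs - 1))) >>> Qs

def shQ (w n Qs P Q : ℕ) : ℕ :=
  let q1 := posPart w (rep w n * 2 ^ (w - 1)) P Q + Q - P
  (q1 - Nat.land q1 (rep w n * (2 ^ Qs - 1))) >>> Qs

/-- size of the new generator -/
def del (Qs D n sb R : ℕ) : ℕ := R * 2 ^ D + n + 2 * sb / 2 ^ Qs + 2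

/-- new row number `i` -/
def zrow (w Qs D n sb i : ℕ) (rows : List Row) (B : List ℕ) (Es : List (ℕ × ℕ)) (R : ℕ) : Row :=
  let P := cP (phi Qs Es B) rows
  let Q := cQ (phi Qs Es B) rows
  let p := shP w n Qs P Q
  let q := shQ w n Qs P Q
  let d := del Qs D n sb R
  (p + d * 2 ^ (w * (n + i)), q, (p + q) % (2 ^ w - 1) + d)

/-- new rows -/
def zrows (w Qs D n sb : ℕ) (rows : List Row) (B : List ℕ) :
    ℕ → List (List (ℕ × ℕ)) → List ℕ → List Row
  | i, Es :: E, R :: Rs => zrow w Qs D n sb i rows B Es R :: zrows w Qs D n sb rows B (i + 1) E Rs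
  | _, _, _ => []

/-- one step -/
def zstep (w Qs D : ℕ) (s : ZS) (B : List ℕ) (E : List (List (ℕ × ℕ))) (R : List ℕ) : ZS :=
  ⟨s.n + 8, zrows w Qs D s.n (sumB s.rows) s.rows B 0 E R⟩

/-- bounds are small enough -/
def chkB (D : ℕ) : List Row → List ℕ → Bool
  | r :: rows, b :: bs => decide (r.2.2 ≤ b * 2 ^ D) && chkB D rows bs
  | [], [] => true
  | _, _ => false

/-- no overflow -/
def chkE (w Qs : ℕ) (rows : List Row) (B : List ℕ) : List (List (ℕ × ℕ)) → Bool
  | Es :: E => decide (cN (phi Qs Es B) rows < 2 ^ (w - 1)) && (Es.length == 8) &&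
      chkE w Qs rows B E
  | [] => true

/-- all checks of one step -/
def zchk (w Qs D : ℕ) (s : ZS) (B : List ℕ) (E : List (List (ℕ × ℕ))) (R : List ℕ) : Bool :=
  (s.rows.length == 8) && (B.length == 8) && (E.length == 8) && (R.length == 8) &&
    chkB D s.rows B && chkE w Qs s.rows B E

/-- `r` is the row with digits `f`, `g` -/
structure IsRow (w n : ℕ) (r : Row) (f g : ℕ → ℕ) : Prop where
  hp : r.1 = pk w n f
  hq : r.2.1 = pk w n g
  hb : ∑ j ∈ range n, (f j + g j) ≤ r.2.2

/-- the vector `y` lies in the zonotope of the state -/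
def Zn (w : ℕ) (s : ZS) (y : ℕ → ℝ) : Prop :=
  ∃ f g : ℕ → ℕ → ℕ, (∀ i < 8, IsRow w s.n (s.rows.getD i (0, 0, 0)) (f i) (g i)) ∧
    ∃ α : ℕ → ℝ, (∀ j, |α j| ≤ 1) ∧
      ∀ i < 8, y i = ∑ j ∈ range s.n, ((f i j : ℝ) - g i j) * α j

/-! ### lists as functions -/

theorem cP_eq : ∀ (m : ℕ) (co : List (ℕ × ℕ)) (rows : List Row), co.length = m → rows.length = m →
    cP co rows = ∑ k ∈ range m, ((co.getD k (0, 0)).1 * (rows.getD k (0, 0, 0)).1 +
      (co.getD k (0, 0)).2 * (rows.getD k (0, 0, 0)).2.1) := by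
  intro m
  induction m with
  | zero =>
    intro co rows h1 h2
    rw [List.length_eq_zero_iff] at h1 h2
    subst h1; subst h2
    rfl
  | succ m ih =>
    intro co rows h1 h2
    match co, rows, h1, h2 with
    | c :: co, r :: rows, h1, h2 =>
      rw [sum_range_succ', cP, ih co rows (by simpa using h1) (by simpa using h2)]
      simp only [List.getD_cons_succ, List.getD_cons_zero]
      ring

theorem cQ_eq : ∀ (m : ℕ) (co : List (ℕ × ℕ)) (rows : List Row), co.length = m → rows.length = m →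
    cQ co rows = ∑ k ∈ range m, ((co.getD k (0, 0)).1 * (rows.getD k (0, 0, 0)).2.1 +
      (co.getD k (0, 0)).2 * (rows.getD k (0, 0, 0)).1) := by
  intro m
  induction m with
  | zero =>
    intro co rows h1 h2
    rw [List.length_eq_zero_iff] at h1 h2
    subst h1; subst h2
    rfl
  | succ m ih =>
    intro co rows h1 h2
    match co, rows, h1, h2 with
    | c :: co, r :: rows, h1, h2 =>
      rw [sum_range_succ', cQ, ih co rows (by simpa using h1) (by simpa using h2)]
      simp only [List.getD_cons_succ, List.getD_cons_zero]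
      ring

theorem cN_eq : ∀ (m : ℕ) (co : List (ℕ × ℕ)) (rows : List Row), co.length = m → rows.length = m →
    cN co rows = ∑ k ∈ range m, (((co.getD k (0, 0)).1 + (co.getD k (0, 0)).2) *
      (rows.getD k (0, 0, 0)).2.2) := by
  intro m
  induction m with
  | zero =>
    intro co rows h1 h2
    rw [List.length_eq_zero_iff] at h1 h2
    subst h1; subst h2
    rfl
  | succ m ih =>
    intro co rows h1 h2
    match co, rows, h1, h2 with
    | c :: co, r :: rows, h1, h2 =>
      rw [sum_range_succ', cN, ih co rows (by simpa using h1) (by simpa using h2)]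
      simp only [List.getD_cons_succ, List.getD_cons_zero]
      ring

theorem sumB_eq : ∀ (m : ℕ) (rows : List Row), rows.length = m →
    sumB rows = ∑ k ∈ range m, (rows.getD k (0, 0, 0)).2.2 := by
  intro m
  induction m with
  | zero =>
    intro rows h2
    rw [List.length_eq_zero_iff] at h2
    subst h2
    rfl
  | succ m ih =>
    intro rows h2
    match rows, h2 with
    | r :: rows, h2 =>
      rw [sum_range_succ', sumB, ih rows (by simpa using h2)]
      simp only [List.getD_cons_succ, List.getD_cons_zero]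
      ring

theorem phi_len (Qs : ℕ) : ∀ (m : ℕ) (es : List (ℕ × ℕ)) (bs : List ℕ), es.length = m →
    bs.length = m → (phi Qs es bs).length = m ∧ ∀ k < m, (phi Qs es bs).getD k (0, 0) =
      ((es.getD k (0, 0)).1 * 2 ^ Qs / bs.getD k 0, (es.getD k (0, 0)).2 * 2 ^ Qs / bs.getD k 0) := by
  intro m
  induction m with
  | zero =>
    intro es bs h1 h2
    rw [List.length_eq_zero_iff] at h1 h2
    subst h1; subst h2
    exact ⟨rfl, fun k hk => absurd hk (Nat.not_lt_zero k)⟩
  | succ m ih =>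
    intro es bs h1 h2
    match es, bs, h1, h2 with
    | e :: es, b :: bs, h1, h2 =>
      obtain ⟨i1, i2⟩ := ih es bs (by simpa using h1) (by simpa using h2)
      refine ⟨by simp [phi, i1], ?_⟩
      intro k hk
      rcases k with _ | k
      · simp [phi]
      · simp only [phi, List.getD_cons_succ]
        exact i2 k (by omega)

theorem chkB_iff (D : ℕ) : ∀ (m : ℕ) (rows : List Row) (bs : List ℕ), rows.length = m →
    bs.length = m → chkB D rows bs = true → ∀ k < m, (rows.getD k (0, 0, 0)).2.2 ≤ bs.getD k 0 * 2 ^ D := by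
  intro m
  induction m with
  | zero => intro rows bs _ _ _ k hk; exact absurd hk (Nat.not_lt_zero k)
  | succ m ih =>
    intro rows bs h1 h2 h3 k hk
    match rows, bs, h1, h2 with
    | r :: rows, b :: bs, h1, h2 =>
      rw [chkB, Bool.and_eq_true, decide_eq_true_eq] at h3
      rcases k with _ | k
      · simpa using h3.1
      · simp only [List.getD_cons_succ]
        exact ih rows bs (by simpa using h1) (by simpa using h2) h3.2 k (by omega)

theorem chkE_iff (w Qs : ℕ) (rows : List Row) (B : List ℕ) : ∀ (E : List (List (ℕ × ℕ))),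
    chkE w Qs rows B E = true → ∀ k < E.length, cN (phi Qs (E.getD k []) B) rows < 2 ^ (w - 1) ∧
      (E.getD k []).length = 8 := by
  intro E
  induction E with
  | nil => intro _ k hk; exact absurd hk (Nat.not_lt_zero k)
  | cons Es E ih =>
    intro h k hk
    rw [chkE, Bool.and_eq_true, Bool.and_eq_true, decide_eq_true_eq, beq_iff_eq] at h
    rcases k with _ | k
    · simpa using h.1
    · simp only [List.getD_cons_succ]
      exact ih h.2 k (by simpa using hk)

theorem zrows_get (w Qs D n sb : ℕ) (rows : List Row) (B : List ℕ) : ∀ (m i : ℕ)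
    (E : List (List (ℕ × ℕ))) (R : List ℕ), E.length = m → R.length = m →
    ∀ k < m, (zrows w Qs D n sb rows B i E R).getD k (0, 0, 0) =
      zrow w Qs D n sb (i + k) rows B (E.getD k []) (R.getD k 0) := by
  intro m
  induction m with
  | zero => intro i E R _ _ k hk; exact absurd hk (Nat.not_lt_zero k)
  | succ m ih =>
    intro i E R h1 h2 k hk
    match E, R, h1, h2 with
    | Es :: E, r :: R, h1, h2 =>
      rcases k with _ | k
      · simp [zrows]
      · simp only [zrows, List.getD_cons_succ]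
        rw [ih (i + 1) E R (by simpa using h1) (by simpa using h2) k (by omega)]
        congr 1
        omega

/-! ### arithmetic of one row -/

theorem rep_pk (w n c : ℕ) (hw : 1 ≤ w) :
    rep w n * c = pk w n (fun k => if (fun _ : ℕ => true) k = true then c else 0) := by
  rw [rep_eq w n hw]
  unfold pk
  rw [sum_mul]
  exact sum_congr rfl (fun k _ => by simp; ring)

theorem sh_eq (w n Qs : ℕ) (F G : ℕ → ℕ) (hw : 1 ≤ w) (hQ : Qs ≤ w)
    (hF : ∀ k < n, F k < 2 ^ (w - 1)) (hG : ∀ k < n, G k < 2 ^ (w - 1)) :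
    shP w n Qs (pk w n F) (pk w n G) = pk w n (fun k => (F k - G k) / 2 ^ Qs) ∧
      shQ w n Qs (pk w n F) (pk w n G) = pk w n (fun k => (G k - F k) / 2 ^ Qs) := by
  have hlt : 2 ^ (w - 1) ≤ 2 ^ w := Nat.pow_le_pow_right (by norm_num) (by omega)
  have e1 : posPart w (rep w n * 2 ^ (w - 1)) (pk w n F) (pk w n G) = pk w n (fun k => F k - G k) := by
    rw [rep_pk w n _ hw]
    exact posPart_eq w n (fun _ => true) F G hw hF hG (by simp) (by simp)
  have e2 : pk w n (fun k => F k - G k) + pk w n G - pk w n F = pk w n (fun k => G k - F k) := by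
    rw [pk_add, pk_sub]
    · apply pk_congr; intro k _; omega
    · intro k _; omega
  constructor
  · unfold shP
    simp only
    rw [e1, rep_pk w n _ hw, land_lowmask w n Qs (fun _ => true) _ hQ (fun k hk => by
      have := hF k hk; omega) (by simp), shift_digits]
  · unfold shQ
    simp only
    rw [e1, e2, rep_pk w n _ hw, land_lowmask w n Qs (fun _ => true) _ hQ (fun k hk => by
      have := hG k hk; omega) (by simp), shift_digits]

/-- the combined digits -/
theorem row_step (w n Qs m : ℕ) (hw : 1 ≤ w) (hQ : Qs ≤ w) (a b bd : ℕ → ℕ) (f g : ℕ → ℕ → ℕ)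
    (hb : ∀ k < m, ∑ j ∈ range n, (f k j + g k j) ≤ bd k)
    (ho : ∑ k ∈ range m, (a k + b k) * bd k < 2 ^ (w - 1)) :
    ∃ f' g' : ℕ → ℕ,
      shP w n Qs (∑ k ∈ range m, (a k * pk w n (f k) + b k * pk w n (g k)))
        (∑ k ∈ range m, (a k * pk w n (g k) + b k * pk w n (f k))) = pk w n f' ∧
      shQ w n Qs (∑ k ∈ range m, (a k * pk w n (f k) + b k * pk w n (g k)))
        (∑ k ∈ range m, (a k * pk w n (g k) + b k * pk w n (f k))) = pk w n g' ∧
      ∑ j ∈ range n, (f' j + g' j) < 2 ^ w - 1 ∧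
      ∀ α : ℕ → ℝ, (∀ j, |α j| ≤ 1) →
        |∑ k ∈ range m, (((a k : ℝ) - b k) / 2 ^ Qs) * (∑ j ∈ range n, ((f k j : ℝ) - g k j) * α j)
          - ∑ j ∈ range n, ((f' j : ℝ) - g' j) * α j| ≤ n := by
  set F : ℕ → ℕ := fun j => ∑ k ∈ range m, (a k * f k j + b k * g k j) with hF
  set G : ℕ → ℕ := fun j => ∑ k ∈ range m, (a k * g k j + b k * f k j) with hG
  have eP : ∑ k ∈ range m, (a k * pk w n (f k) + b k * pk w n (g k)) = pk w n F := by
    unfold pk
    simp only [hF, sum_mul, mul_sum]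
    rw [sum_comm]
    refine sum_congr rfl (fun k _ => ?_)
    rw [← sum_add_distrib]
    exact sum_congr rfl (fun j _ => by ring)
  have eQ : ∑ k ∈ range m, (a k * pk w n (g k) + b k * pk w n (f k)) = pk w n G := by
    unfold pk
    simp only [hG, sum_mul, mul_sum]
    rw [sum_comm]
    refine sum_congr rfl (fun k _ => ?_)
    rw [← sum_add_distrib]
    exact sum_congr rfl (fun j _ => by ring)
  have tot : ∑ j ∈ range n, (F j + G j) < 2 ^ (w - 1) := by
    refine lt_of_le_of_lt ?_ ho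
    have e : ∑ j ∈ range n, (F j + G j)
        = ∑ k ∈ range m, (a k + b k) * ∑ j ∈ range n, (f k j + g k j) := by
      simp only [hF, hG]
      simp_rw [← sum_add_distrib, mul_sum]
      rw [sum_comm]
      exact sum_congr rfl (fun k _ => sum_congr rfl (fun j _ => by ring))
    rw [e]
    exact sum_le_sum (fun k hk => Nat.mul_le_mul_left _ (hb k (mem_range.1 hk)))
  have hFl : ∀ j < n, F j < 2 ^ (w - 1) := fun j hj =>
    lt_of_le_of_lt ((Nat.le_add_right _ _).trans
      (single_le_sum (f := fun j => F j + G j) (fun _ _ => Nat.zero_le _) (mem_range.2 hj))) tot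
  have hGl : ∀ j < n, G j < 2 ^ (w - 1) := fun j hj =>
    lt_of_le_of_lt ((Nat.le_add_left _ _).trans
      (single_le_sum (f := fun j => F j + G j) (fun _ _ => Nat.zero_le _) (mem_range.2 hj))) tot
  obtain ⟨s1, s2⟩ := sh_eq w n Qs F G hw hQ hFl hGl
  refine ⟨fun k => (F k - G k) / 2 ^ Qs, fun k => (G k - F k) / 2 ^ Qs, ?_, ?_, ?_, ?_⟩
  · rw [eP, eQ]; exact s1
  · rw [eP, eQ]; exact s2
  · show ∑ j ∈ range n, ((F j - G j) / 2 ^ Qs + (G j - F j) / 2 ^ Qs) < 2 ^ w - 1
    have h1 : ∑ j ∈ range n, ((F j - G j) / 2 ^ Qs + (G j - F j) / 2 ^ Qs)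
        ≤ ∑ j ∈ range n, (F j + G j) := by
      refine sum_le_sum (fun j _ => ?_)
      have h2 := Nat.div_le_self (F j - G j) (2 ^ Qs)
      have h3 := Nat.div_le_self (G j - F j) (2 ^ Qs)
      omega
    have h4 : 2 ^ w = 2 ^ (w - 1) + 2 ^ (w - 1) := by
      have : w = (w - 1) + 1 := by omega
      conv_lhs => rw [this, pow_succ]
      ring
    have h5 : 1 ≤ 2 ^ (w - 1) := Nat.one_le_two_pow
    omega
  · intro α hα
    have e : ∑ k ∈ range m, (((a k : ℝ) - b k) / 2 ^ Qs) *
        (∑ j ∈ range n, ((f k j : ℝ) - g k j) * α j)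
        = ∑ j ∈ range n, (((F j : ℝ) - G j) / 2 ^ Qs) * α j := by
      simp only [hF, hG]
      push_cast
      simp_rw [mul_sum]
      rw [sum_comm]
      refine sum_congr rfl (fun j _ => ?_)
      rw [← sum_sub_distrib, sum_div, sum_mul]
      refine sum_congr rfl (fun k _ => ?_)
      ring
    rw [e, ← sum_sub_distrib]
    refine (abs_sum_le_sum_abs _ _).trans ?_
    have hterm : ∀ j ∈ range n, |((F j : ℝ) - G j) / 2 ^ Qs * α j -
        ((((F j - G j) / 2 ^ Qs : ℕ) : ℝ) - (((G j - F j) / 2 ^ Qs : ℕ) : ℝ)) * α j| ≤ 1 := by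
      intro j _
      rw [← sub_mul, abs_mul]
      refine mul_le_one₀ ?_ (abs_nonneg _) (hα j)
      have hpos : (0 : ℝ) < 2 ^ Qs := by positivity
      have key : ∀ x : ℕ, |(x : ℝ) / 2 ^ Qs - ((x / 2 ^ Qs : ℕ) : ℝ)| ≤ 1 := by
        intro x
        have h1 : x = 2 ^ Qs * (x / 2 ^ Qs) + x % 2 ^ Qs := (Nat.div_add_mod x (2 ^ Qs)).symm
        have h2 : x % 2 ^ Qs < 2 ^ Qs := Nat.mod_lt _ (by positivity)
        have h3 : (x : ℝ) = 2 ^ Qs * ((x / 2 ^ Qs : ℕ) : ℝ) + ((x % 2 ^ Qs : ℕ) : ℝ) := by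
          exact_mod_cast h1
        have h4 : (x : ℝ) / 2 ^ Qs - ((x / 2 ^ Qs : ℕ) : ℝ) = ((x % 2 ^ Qs : ℕ) : ℝ) / 2 ^ Qs := by
          rw [eq_div_iff hpos.ne', sub_mul, div_mul_cancel₀ _ hpos.ne']
          linarith
        rw [h4, abs_of_nonneg (by positivity), div_le_one hpos]
        exact_mod_cast h2.le
      rcases le_total (G j) (F j) with h | h
      · have h0 : G j - F j = 0 := by omega
        have h1 : (F j : ℝ) - G j = ((F j - G j : ℕ) : ℝ) := by rw [Nat.cast_sub h]
        rw [h0, h1]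
        simpa using key (F j - G j)
      · have h0 : (F j - G j) / 2 ^ Qs = 0 := by
          have : F j - G j = 0 := by omega
          rw [this]
          exact Nat.zero_div _
        have h1 : (F j : ℝ) - G j = -((G j - F j : ℕ) : ℝ) := by rw [Nat.cast_sub h]; ring
        rw [h0, h1]
        have h2 := key (G j - F j)
        rw [← abs_neg] at h2
        refine le_trans (le_of_eq ?_) h2
        congr 1
        push_cast
        ring
    calc ∑ j ∈ range n, |((F j : ℝ) - G j) / 2 ^ Qs * α j -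
        ((((F j - G j) / 2 ^ Qs : ℕ) : ℝ) - (((G j - F j) / 2 ^ Qs : ℕ) : ℝ)) * α j|
        ≤ ∑ j ∈ range n, (1 : ℝ) := sum_le_sum hterm
      _ = n := by simp

/-! ### appended digits -/

/-- digits with one new digit `d` at place `n + i` -/
def app (n i d : ℕ) (f : ℕ → ℕ) (j : ℕ) : ℕ := if j < n then f j else if j = n + i then d else 0

theorem app_lt {n i d j : ℕ} {f : ℕ → ℕ} (h : j < n) : app n i d f j = f j := if_pos h

theorem app_eq {n i d : ℕ} {f : ℕ → ℕ} : app n i d f (n + i) = d := by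
  unfold app
  rw [if_neg (by omega), if_pos rfl]

theorem app_ne {n i d j : ℕ} {f : ℕ → ℕ} (h1 : n ≤ j) (h2 : j ≠ n + i) : app n i d f j = 0 := by
  unfold app
  rw [if_neg (by omega), if_neg h2]

theorem sum_app {M : Type*} [AddCommMonoid M] (n i : ℕ) (hi : i < 8) (F : ℕ → M)
    (h0 : ∀ j, n ≤ j → j ≠ n + i → F j = 0) :
    ∑ j ∈ range (n + 8), F j = ∑ j ∈ range n, F j + F (n + i) := by
  rw [sum_range_add]
  congr 1
  rw [sum_eq_single_of_mem i (mem_range.2 hi)]
  intro b _ hb
  exact h0 _ (by omega) (by omega)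

theorem pk_app (w n i d : ℕ) (hi : i < 8) (f : ℕ → ℕ) :
    pk w (n + 8) (app n i d f) = pk w n f + d * 2 ^ (w * (n + i)) := by
  unfold pk
  rw [sum_app n i hi]
  · congr 1
    · refine sum_congr rfl (fun j hj => ?_)
      rw [app_lt (mem_range.1 hj)]
    · rw [app_eq]
  · intro j h1 h2
    rw [app_ne h1 h2, zero_mul]

theorem Zn.bound {w : ℕ} {s : ZS} {y : ℕ → ℝ} (h : Zn w s y) {i : ℕ} (hi : i < 8) :
    |y i| ≤ ((s.rows.getD i (0, 0, 0)).2.2 : ℕ) := by
  obtain ⟨f, g, hr, α, hα, hy⟩ := h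
  rw [hy i hi]
  refine (abs_sum_le_sum_abs _ _).trans ?_
  have h1 : ∀ j ∈ range s.n, |((f i j : ℝ) - g i j) * α j| ≤ ((f i j + g i j : ℕ) : ℝ) := by
    intro j _
    rw [abs_mul]
    have h2 : |(f i j : ℝ) - g i j| ≤ ((f i j + g i j : ℕ) : ℝ) := by
      push_cast
      rw [abs_le]
      have a1 : (0 : ℝ) ≤ f i j := Nat.cast_nonneg _
      have a2 : (0 : ℝ) ≤ g i j := Nat.cast_nonneg _
      constructor <;> linarith
    calc |(f i j : ℝ) - g i j| * |α j| ≤ ((f i j + g i j : ℕ) : ℝ) * 1 :=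
          mul_le_mul h2 (hα j) (abs_nonneg _) (Nat.cast_nonneg _)
      _ = _ := mul_one _
  refine (sum_le_sum h1).trans ?_
  have h3 := (hr i hi).hb
  exact_mod_cast h3

/-- **Soundness of one zonotope step.** -/
theorem zstep_sound {w Qs D : ℕ} (hw : 1 ≤ w) (hQ : Qs ≤ w) {s : ZS} {B : List ℕ}
    {E : List (List (ℕ × ℕ))} {R : List ℕ} (hc : zchk w Qs D s B E R = true) {y X : ℕ → ℝ}
    (hy : Zn w s y)
    (hX : ∀ i < 8, |X i - ∑ k ∈ range 8, ((((E.getD i []).getD k (0, 0)).1 : ℝ) -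
      (((E.getD i []).getD k (0, 0)).2 : ℝ)) / (B.getD k 0 : ℝ) * y k| ≤ (R.getD i 0 : ℝ) * 2 ^ D) :
    Zn w (zstep w Qs D s B E R) X := by
  unfold zchk at hc
  simp only [Bool.and_eq_true, beq_iff_eq] at hc
  obtain ⟨⟨⟨⟨⟨hl1, hl2⟩, hl3⟩, hl4⟩, hcB⟩, hcE⟩ := hc
  have hB := chkB_iff D 8 s.rows B hl1 hl2 hcB
  have hE := chkE_iff w Qs s.rows B E hcE
  rw [hl3] at hE
  have hyb := fun i hi => hy.bound (i := i) hi
  obtain ⟨f, g, hr, α, hα, hyv⟩ := hy
  -- the combined digits of every row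
  have hex : ∀ i, ∃ f' g' : ℕ → ℕ, i < 8 →
      (shP w s.n Qs (cP (phi Qs (E.getD i []) B) s.rows) (cQ (phi Qs (E.getD i []) B) s.rows)
          = pk w s.n f' ∧
        shQ w s.n Qs (cP (phi Qs (E.getD i []) B) s.rows) (cQ (phi Qs (E.getD i []) B) s.rows)
          = pk w s.n g' ∧
        ∑ j ∈ range s.n, (f' j + g' j) < 2 ^ w - 1 ∧
        |X i - ∑ j ∈ range s.n, ((f' j : ℝ) - g' j) * α j|
          ≤ (del Qs D s.n (sumB s.rows) (R.getD i 0) : ℝ)) := by
    intro i
    by_cases hi : i < 8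
    swap
    · exact ⟨0, 0, fun h => absurd h hi⟩
    obtain ⟨hov, hlen⟩ := hE i hi
    obtain ⟨hpl, hpg⟩ := phi_len Qs 8 (E.getD i []) B hlen hl2
    rw [cN_eq 8 _ _ hpl hl1] at hov
    obtain ⟨f', g', e1, e2, e3, e4⟩ := row_step w s.n Qs 8 hw hQ
      (fun k => ((phi Qs (E.getD i []) B).getD k (0, 0)).1)
      (fun k => ((phi Qs (E.getD i []) B).getD k (0, 0)).2)
      (fun k => (s.rows.getD k (0, 0, 0)).2.2) f g (fun k hk => (hr k hk).hb) hov
    have hP : cP (phi Qs (E.getD i []) B) s.rows = ∑ k ∈ range 8,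
        (((phi Qs (E.getD i []) B).getD k (0, 0)).1 * pk w s.n (f k) +
          ((phi Qs (E.getD i []) B).getD k (0, 0)).2 * pk w s.n (g k)) := by
      rw [cP_eq 8 _ _ hpl hl1]
      exact sum_congr rfl (fun k hk => by rw [(hr k (mem_range.1 hk)).hp, (hr k (mem_range.1 hk)).hq])
    have hQ' : cQ (phi Qs (E.getD i []) B) s.rows = ∑ k ∈ range 8,
        (((phi Qs (E.getD i []) B).getD k (0, 0)).1 * pk w s.n (g k) +
          ((phi Qs (E.getD i []) B).getD k (0, 0)).2 * pk w s.n (f k)) := by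
      rw [cQ_eq 8 _ _ hpl hl1]
      exact sum_congr rfl (fun k hk => by rw [(hr k (mem_range.1 hk)).hp, (hr k (mem_range.1 hk)).hq])
    refine ⟨f', g', fun _ => ⟨by rw [hP, hQ']; exact e1, by rw [hP, hQ']; exact e2, e3, ?_⟩⟩
    have e5 := e4 α hα
    have e6 := hX i hi
    -- change of the coefficients
    have e7 : |∑ k ∈ range 8, ((((E.getD i []).getD k (0, 0)).1 : ℝ) -
        (((E.getD i []).getD k (0, 0)).2 : ℝ)) / (B.getD k 0 : ℝ) * y k -
        ∑ k ∈ range 8, (((((phi Qs (E.getD i []) B).getD k (0, 0)).1 : ℝ) -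
          ((phi Qs (E.getD i []) B).getD k (0, 0)).2) / 2 ^ Qs) *
          (∑ j ∈ range s.n, ((f k j : ℝ) - g k j) * α j)| ≤ (sumB s.rows : ℝ) / 2 ^ Qs := by
      rw [← sum_sub_distrib, sumB_eq 8 _ hl1]
      push_cast
      rw [sum_div]
      refine (abs_sum_le_sum_abs _ _).trans (sum_le_sum (fun k hk => ?_))
      have hk' := mem_range.1 hk
      rw [← hyv k hk', hpg k hk', ← sub_mul, abs_mul]
      have hb0 := hyb k hk'
      have hpos : (0 : ℝ) < 2 ^ Qs := by positivity
      rcases Nat.eq_zero_or_pos (B.getD k 0) with h0 | h0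
      · have h1 := hB k hk'
        rw [h0, zero_mul] at h1
        have h2 : (s.rows.getD k (0, 0, 0)).2.2 = 0 := by omega
        rw [h2] at hb0 ⊢
        have h3 : |y k| = 0 := le_antisymm (by simpa using hb0) (abs_nonneg _)
        rw [h3]
        simp
      · have hBp : (0 : ℝ) < (B.getD k 0 : ℝ) := by exact_mod_cast h0
        have key : ∀ x : ℕ, 0 ≤ (x : ℝ) / (B.getD k 0 : ℝ) -
            ((x * 2 ^ Qs / B.getD k 0 : ℕ) : ℝ) / 2 ^ Qs ∧
            (x : ℝ) / (B.getD k 0 : ℝ) - ((x * 2 ^ Qs / B.getD k 0 : ℕ) : ℝ) / 2 ^ Qs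
              ≤ 1 / 2 ^ Qs := by
          intro x
          set b := B.getD k 0 with hb
          have h1 : x * 2 ^ Qs = b * (x * 2 ^ Qs / b) + x * 2 ^ Qs % b :=
            (Nat.div_add_mod _ b).symm
          have h2 : x * 2 ^ Qs % b < b := Nat.mod_lt _ h0
          have h3 : (x : ℝ) * 2 ^ Qs = b * ((x * 2 ^ Qs / b : ℕ) : ℝ) + ((x * 2 ^ Qs % b : ℕ) : ℝ) := by
            exact_mod_cast h1
          have h4 : (x : ℝ) / b - ((x * 2 ^ Qs / b : ℕ) : ℝ) / 2 ^ Qs
              = ((x * 2 ^ Qs % b : ℕ) : ℝ) / (b * 2 ^ Qs) := by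
            rw [div_sub_div _ _ hBp.ne' hpos.ne']
            congr 1
            linarith
          rw [h4]
          constructor
          · positivity
          · rw [div_le_div_iff₀ (by positivity) hpos, one_mul]
            have h5 : ((x * 2 ^ Qs % b : ℕ) : ℝ) ≤ b := by exact_mod_cast h2.le
            nlinarith
        obtain ⟨k1, k2⟩ := key ((E.getD i []).getD k (0, 0)).1
        obtain ⟨k3, k4⟩ := key ((E.getD i []).getD k (0, 0)).2
        have h5 : |(((((E.getD i []).getD k (0, 0)).1 : ℝ) - (((E.getD i []).getD k (0, 0)).2 : ℝ)) /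
            (B.getD k 0 : ℝ) - ((((((E.getD i []).getD k (0, 0)).1 * 2 ^ Qs / B.getD k 0 : ℕ) : ℝ) -
              ((((E.getD i []).getD k (0, 0)).2 * 2 ^ Qs / B.getD k 0 : ℕ) : ℝ)) / 2 ^ Qs))|
            ≤ 1 / 2 ^ Qs := by
          rw [sub_div, sub_div, abs_le]
          constructor <;> linarith
        calc _ ≤ 1 / 2 ^ Qs * ((s.rows.getD k (0, 0, 0)).2.2 : ℝ) :=
              mul_le_mul h5 hb0 (abs_nonneg _) (by positivity)
          _ = _ := by ring
    have e8 : (sumB s.rows : ℝ) / 2 ^ Qs ≤ ((2 * sumB s.rows / 2 ^ Qs : ℕ) : ℝ) + 2 := by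
      have h1 : 2 * sumB s.rows = 2 ^ Qs * (2 * sumB s.rows / 2 ^ Qs) + 2 * sumB s.rows % 2 ^ Qs :=
        (Nat.div_add_mod _ _).symm
      have h2 : 2 * sumB s.rows % 2 ^ Qs < 2 ^ Qs := Nat.mod_lt _ (by positivity)
      have h3 : (2 : ℝ) * (sumB s.rows : ℝ) = 2 ^ Qs * ((2 * sumB s.rows / 2 ^ Qs : ℕ) : ℝ) +
          ((2 * sumB s.rows % 2 ^ Qs : ℕ) : ℝ) := by exact_mod_cast h1
      have h4 : ((2 * sumB s.rows % 2 ^ Qs : ℕ) : ℝ) ≤ 2 ^ Qs := by exact_mod_cast h2.le
      have hpos : (0 : ℝ) < 2 ^ Qs := by positivity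
      rw [div_le_iff₀ hpos]
      have h5 : (0 : ℝ) ≤ (sumB s.rows : ℝ) := Nat.cast_nonneg _
      nlinarith
    unfold del
    push_cast
    have t1 := abs_add_le (X i - ∑ k ∈ range 8, ((((E.getD i []).getD k (0, 0)).1 : ℝ) -
      (((E.getD i []).getD k (0, 0)).2 : ℝ)) / (B.getD k 0 : ℝ) * y k)
      (∑ k ∈ range 8, ((((E.getD i []).getD k (0, 0)).1 : ℝ) -
        (((E.getD i []).getD k (0, 0)).2 : ℝ)) / (B.getD k 0 : ℝ) * y k -
        ∑ j ∈ range s.n, ((f' j : ℝ) - g' j) * α j)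
    have t2 := abs_add_le (∑ k ∈ range 8, ((((E.getD i []).getD k (0, 0)).1 : ℝ) -
        (((E.getD i []).getD k (0, 0)).2 : ℝ)) / (B.getD k 0 : ℝ) * y k -
        ∑ k ∈ range 8, (((((phi Qs (E.getD i []) B).getD k (0, 0)).1 : ℝ) -
          ((phi Qs (E.getD i []) B).getD k (0, 0)).2) / 2 ^ Qs) *
          (∑ j ∈ range s.n, ((f k j : ℝ) - g k j) * α j))
      (∑ k ∈ range 8, (((((phi Qs (E.getD i []) B).getD k (0, 0)).1 : ℝ) -
          ((phi Qs (E.getD i []) B).getD k (0, 0)).2) / 2 ^ Qs) *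
          (∑ j ∈ range s.n, ((f k j : ℝ) - g k j) * α j) -
        ∑ j ∈ range s.n, ((f' j : ℝ) - g' j) * α j)
    rw [sub_add_sub_cancel] at t1 t2
    push_cast at e8
    linarith
  choose f' g' hfg using hex
  set d : ℕ → ℕ := fun i => del Qs D s.n (sumB s.rows) (R.getD i 0) with hd
  have hdpos : ∀ i, (0 : ℝ) < (d i : ℝ) := by
    intro i
    have : 0 < d i := by
      show 0 < del Qs D s.n (sumB s.rows) (R.getD i 0)
      unfold del
      exact Nat.lt_of_lt_of_le (by norm_num : 0 < 2) (Nat.le_add_left _ _)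
    exact_mod_cast this
  refine ⟨fun i => app s.n i (d i) (f' i), fun i => app s.n i 0 (g' i), ?_,
    fun j => if j < s.n then α j else if j < s.n + 8 then
      (X (j - s.n) - ∑ l ∈ range s.n, ((f' (j - s.n) l : ℝ) - g' (j - s.n) l) * α l) / d (j - s.n)
      else 0, ?_, ?_⟩
  · intro i hi
    obtain ⟨q1, q2, q3, q4⟩ := hfg i hi
    have hget : (zstep w Qs D s B E R).rows.getD i (0, 0, 0)
        = zrow w Qs D s.n (sumB s.rows) i s.rows B (E.getD i []) (R.getD i 0) := by
      have := zrows_get w Qs D s.n (sumB s.rows) s.rows B 8 0 E R hl3 hl4 i hi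
      rw [Nat.zero_add] at this
      exact this
    rw [hget]
    refine ⟨?_, ?_, ?_⟩
    · show _ = pk w (s.n + 8) _
      rw [pk_app w s.n i _ hi]
      simp only [zrow]
      rw [q1]
    · show _ = pk w (s.n + 8) _
      rw [pk_app w s.n i _ hi]
      simp only [zrow]
      rw [q2]
      simp
    · show ∑ j ∈ range (s.n + 8), _ ≤ _
      rw [sum_app s.n i hi]
      · simp only [zrow]
        rw [q1, q2, pk_add, pk_mod w s.n (fun k => f' i k + g' i k) q3]
        have z1 : ∑ j ∈ range s.n, (app s.n i (d i) (f' i) j + app s.n i 0 (g' i) j)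
            = ∑ j ∈ range s.n, (f' i j + g' i j) := by
          refine sum_congr rfl (fun j hj => ?_)
          rw [app_lt (mem_range.1 hj), app_lt (mem_range.1 hj)]
        have z2 : app s.n i (d i) (f' i) (s.n + i) + app s.n i 0 (g' i) (s.n + i) = d i := by
          rw [app_eq, app_eq, add_zero]
        rw [z1, z2]
      · intro j h1 h2
        beta_reduce
        rw [app_ne h1 h2, app_ne h1 h2, add_zero]
  · intro j
    simp only
    split_ifs with h1 h2
    · exact hα j
    · obtain ⟨q1, q2, q3, q4⟩ := hfg (j - s.n) (by omega)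
      rw [abs_div, abs_of_pos (hdpos _), div_le_one (hdpos _)]
      exact q4
    · simp
  · intro i hi
    obtain ⟨q1, q2, q3, q4⟩ := hfg i hi
    show X i = ∑ j ∈ range (s.n + 8), _
    rw [sum_app s.n i hi]
    · have z1 : ∀ j ∈ range s.n, (((app s.n i (d i) (f' i) j : ℕ) : ℝ) -
          ((app s.n i 0 (g' i) j : ℕ) : ℝ)) * (if j < s.n then α j else if j < s.n + 8 then
      (X (j - s.n) - ∑ l ∈ range s.n, ((f' (j - s.n) l : ℝ) - g' (j - s.n) l) * α l) / d (j - s.n)
      else 0) = ((f' i j : ℝ) - g' i j) * α j := by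
        intro j hj
        rw [app_lt (mem_range.1 hj), app_lt (mem_range.1 hj), if_pos (mem_range.1 hj)]
      rw [sum_congr rfl z1]
      beta_reduce
      rw [app_eq, app_eq, if_neg (by omega), if_pos (by omega), Nat.add_sub_cancel_left]
      have := (hdpos i).ne'
      push_cast
      field_simp
      ring
    · intro j h1 h2
      beta_reduce
      rw [app_ne h1 h2, app_ne h1 h2]
      simp

/-- the coordinates divided by the bounds are in `[-1,1]` -/
theorem Zn.unit {w D : ℕ} {s : ZS} {B : List ℕ} {y : ℕ → ℝ} (h : Zn w s y)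
    (hl : s.rows.length = 8) (hB : B.length = 8) (hc : chkB D s.rows B = true) {i : ℕ}
    (hi : i < 8) : |y i| ≤ (B.getD i 0 : ℝ) * 2 ^ D := by
  refine (h.bound hi).trans ?_
  have := chkB_iff D 8 s.rows B hl hB hc i hi
  exact_mod_cast this

end Pool.Agent.HM.H4
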